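import Pool.Agent.Helper70.SUB.SheetW

/-!
Project SUBW, row MONW: moderate S-units are monomials in independent ones, up to slow factors.
-/

set_option autoImplicit false

namespace Pool.Agent.Helper96.SUBW

open Filter Finset Pool.Agent.Helper70.SUB Pool.Agent.Helper77.SUBK Pool.Agent.Helper70.SUBL
  Pool.Agent.Helper70.SUBW

section

variable {M : Type} [Field M]

theorem zpow_sumW {κ : Type*} (s : Finset κ) (a : M) (ha : a ≠ 0) (f : κ → ℤ) :
    a ^ (∑ i ∈ s, f i) = ∏ i ∈ s, a ^ (f i) := by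
  classical
  induction s using Finset.induction_on with
  | empty => simp
  | insert i s hi ih => rw [Finset.sum_insert hi, Finset.prod_insert hi, zpow_add₀ ha, ih]

/-- monomials in the given sequences -/
noncomputable def UU {ι : Type} [Fintype ι] (u : ι → ℕ → M) (e : ι → ℤ) (j : ℕ) : M :=
  ∏ i, u i j ^ e i

variable {ι : Type} [Fintype ι] {u : ι → ℕ → M}

theorem UU_zero (j : ℕ) : UU u 0 j = 1 := by
  unfold UU
  simp

theorem UU_add {j : ℕ} (hj : ∀ i, u i j ≠ 0) (e e' : ι → ℤ) :
    UU u (e + e') j = UU u e j * UU u e' j := by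
  unfold UU
  rw [← Finset.prod_mul_distrib]
  refine Finset.prod_congr rfl fun i _ => ?_
  rw [Pi.add_apply, zpow_add₀ (hj i)]

theorem UU_neg (j : ℕ) (e : ι → ℤ) : UU u (-e) j = (UU u e j)⁻¹ := by
  unfold UU
  rw [← Finset.prod_inv_distrib]
  refine Finset.prod_congr rfl fun i _ => ?_
  rw [Pi.neg_apply, zpow_neg]

theorem UU_smul (j : ℕ) (k : ℤ) (e : ι → ℤ) : UU u (k • e) j = (UU u e j) ^ k := by
  unfold UU
  rw [← Finset.prod_zpow]
  refine Finset.prod_congr rfl fun i _ => ?_
  rw [Pi.smul_apply, smul_eq_mul, mul_comm, zpow_mul]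

theorem UU_single (j : ℕ) [DecidableEq ι] (i : ι) : UU u (Pi.single i 1) j = u i j := by
  unfold UU
  rw [Finset.prod_eq_single i]
  · simp
  · intro i' _ hi'
    simp [Pi.single_eq_of_ne hi']
  · simp

theorem UU_sum {j : ℕ} (hj : ∀ i, u i j ≠ 0) {r : ℕ} (f : Fin r → ι → ℤ) (l : Fin r → ℤ) :
    UU u (∑ k, l k • f k) j = monM (fun k => UU u (f k) j) l := by
  unfold UU monM
  have h1 : ∀ i, u i j ^ (∑ k, l k • f k) i = ∏ k, (u i j ^ (f k i)) ^ (l k) := by
    intro i
    rw [Finset.sum_apply, zpow_sumW _ _ (hj i)]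
    refine Finset.prod_congr rfl fun k _ => ?_
    rw [Pi.smul_apply, smul_eq_mul, mul_comm, zpow_mul]
  rw [Finset.prod_congr rfl fun i _ => h1 i, Finset.prod_comm]
  refine Finset.prod_congr rfl fun k _ => ?_
  rw [Finset.prod_zpow]

end

theorem MONW (hSLW : ST_SLW) (hSPW : ST_SPW) : ST_MONW := by
  intro M _ _ _ S P φ X ι _ u hS hX hu
  classical
  obtain ⟨s1, s2, s3, -, -, -, s7, s8, -⟩ := hSLW M S P φ X hS hX
  obtain ⟨-, -, -, -, p5, -⟩ := hSPW M S P φ X hS hX
  have hne : ∀ᶠ j in (φ : Filter ℕ), ∀ i, u i j ≠ 0 := by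
    rw [Filter.eventually_all]
    intro i
    exact (hu i).1.mono fun j hj => hj.1
  have hadd : ∀ e e' : ι → ℤ, Slw P φ X (UU u e) → Slw P φ X (UU u e') →
      Slw P φ X (UU u (e + e')) := by
    intro e e' h h'
    refine s7 _ _ ?_ (s2 _ _ h h').2
    filter_upwards [hne] with j hj
    exact (UU_add hj e e').symm
  have hneg : ∀ e : ι → ℤ, Slw P φ X (UU u e) → Slw P φ X (UU u (-e)) := by
    intro e h
    have h1 : UU u (-e) = fun j => (UU u e j)⁻¹ := funext fun j => UU_neg j e
    rw [h1]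
    exact s3 _ h
  have hzero : Slw P φ X (UU u (0 : ι → ℤ)) := by
    have h1 : UU u (0 : ι → ℤ) = fun _ => (1 : M) := funext fun j => UU_zero j
    rw [h1]
    exact s1 1
  let N : AddSubgroup (ι → ℤ) :=
    { carrier := {e | Slw P φ X (UU u e)}
      add_mem' := fun {a b} ha hb => hadd a b ha hb
      zero_mem' := hzero
      neg_mem' := fun {a} ha => hneg a ha }
  have hNmem : ∀ e, e ∈ N ↔ Slw P φ X (UU u e) := fun e => Iff.rfl
  let N' : Submodule ℤ (ι → ℤ) := AddSubgroup.toIntSubmodule N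
  have hN'mem : ∀ e, e ∈ N' ↔ Slw P φ X (UU u e) := fun e => Iff.rfl
  have hsat : ∀ (k : ℤ) (e : ι → ℤ), k ≠ 0 → k • e ∈ N' → e ∈ N' := by
    intro k e hk he
    have key : ∀ n : ℕ, n ≠ 0 → ((n : ℤ) • e) ∈ N' → e ∈ N' := by
      intro n hn hne'
      rw [hN'mem] at hne' ⊢
      refine s8 _ n hn ?_
      have h1 : UU u ((n : ℤ) • e) = fun j => UU u e j ^ n := by
        funext j
        rw [UU_smul, zpow_natCast]
      rwa [← h1]
    rcases Int.natAbs_eq k with h | h
    · rw [h] at he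
      exact key _ (by omega) he
    · rw [h] at he
      have h2 : ((k.natAbs : ℤ) • e) ∈ N' := by
        have h3 := N'.neg_mem he
        rwa [neg_smul, neg_neg] at h3
      exact key _ (by omega) h2
  have : Module.IsTorsionFree ℤ ((ι → ℤ) ⧸ N') := by
    refine Module.IsTorsionFree.of_smul_eq_zero fun k x hx => ?_
    obtain ⟨e, rfl⟩ := N'.mkQ_surjective x
    by_cases hk : k = 0
    · exact Or.inl hk
    · refine Or.inr ?_
      rw [← map_smul] at hx
      have h1 : k • e ∈ N' := (Submodule.Quotient.mk_eq_zero N').mp hx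
      exact (Submodule.Quotient.mk_eq_zero N').mpr (hsat k e hk h1)
  have : Module.Free ℤ ((ι → ℤ) ⧸ N') := Module.free_of_finite_type_torsion_free'
  let b := Module.finBasis ℤ ((ι → ℤ) ⧸ N')
  choose f hf using fun k => N'.mkQ_surjective (b k)
  have hMU : ∀ e : ι → ℤ, MU P φ X (UU u e) := by
    intro e
    set q := Fintype.equivFin ι with hq
    have h1 := p5 (Fintype.card ι) (fun k => u (q.symm k)) (fun k => e (q.symm k))
      (fun k => hu (q.symm k))
    have h2 : UU u e = fun j => monM (fun k => u (q.symm k) j) (fun k => e (q.symm k)) := by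
      funext j
      unfold UU monM
      exact (Equiv.prod_comp q.symm fun i => u i j ^ e i).symm
    rw [h2]
    exact h1
  have hlin : ∀ (l : Fin (Module.finrank ℤ ((ι → ℤ) ⧸ N')) → ℤ),
      N'.mkQ (∑ k, l k • f k) = ∑ k, l k • b k := by
    intro l
    rw [map_sum]
    refine Finset.sum_congr rfl fun k _ => ?_
    rw [map_smul, hf]
  refine ⟨Module.finrank ℤ ((ι → ℤ) ⧸ N'), fun k => UU u (f k),
    fun i => fun k => b.repr (N'.mkQ (Pi.single i 1)) k,
    fun i => UU u (Pi.single i 1 - ∑ k, b.repr (N'.mkQ (Pi.single i 1)) k • f k),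
    fun k => hMU _, ?_, ?_, ?_⟩
  · intro l hl hslow
    apply hl
    have h1 : (∑ k, l k • f k) ∈ N' := by
      rw [hN'mem]
      refine s7 _ _ ?_ hslow
      filter_upwards [hne] with j hj
      exact (UU_sum hj f l).symm
    have h2 : ∑ k, l k • b k = 0 := by
      rw [← hlin l]
      exact (Submodule.Quotient.mk_eq_zero N').mpr h1
    have h3 := Fintype.linearIndependent_iff.mp b.linearIndependent l h2
    funext k
    exact h3 k
  · intro i
    rw [← hN'mem, ← Submodule.Quotient.mk_eq_zero]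
    show N'.mkQ _ = 0
    rw [map_sub, hlin, sub_eq_zero]
    exact (b.sum_repr _).symm
  · intro i
    filter_upwards [hne] with j hj
    have h1 := UU_add hj (Pi.single i 1 - ∑ k, b.repr (N'.mkQ (Pi.single i 1)) k • f k)
      (∑ k, b.repr (N'.mkQ (Pi.single i 1)) k • f k)
    rw [sub_add_cancel, UU_single, UU_sum hj] at h1
    exact h1

end Pool.Agent.Helper96.SUBW
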